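import Pool.Agent.Helper69.LW.FI

/-!
# MP_687a20_mp, Q1: weak-bending asymptotics of the leaky broken line

`LeakyWire.form α θ f = ‖∇f‖² - α ∫_Γ f²` with `Γ = Γ_θ` the broken line, and
`LeakyWire.lam α θ` is the greatest lower bound of this form over all normalized smooth compactly
supported functions, the lowest point of the spectrum of `H_{α,Γ_θ}` (these functions are a form
core), that is, the eigenvalue `λ_α(θ)` of the question.
-/

open LeakyWire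

namespace Pool.Agent.Results.MP_687a20_mp.WeakBending

theorem result (α : ℝ) (hα : 0 < α) :
    ∃ c C θ₀ : ℝ, 0 < c ∧ 0 < θ₀ ∧ ∀ θ, 0 < θ → θ < θ₀ →
      IsGLB {r | ∃ f : ℝ × ℝ → ℝ, Test f ∧ mass f = 1 ∧ r = form α θ f} (lam α θ) ∧
      |lam α θ - (-(1 / 4) * α ^ 2 - c * θ ^ 4)| ≤ C * θ ^ 5 := by
  obtain ⟨c, C, θ₀, hc, hθ₀, h⟩ := main_all α hα
  refine ⟨c, C, θ₀, hc, hθ₀, fun θ h0 h1 => ?_⟩
  obtain ⟨h2, h3⟩ := h θ h0 h1
  refine ⟨h2, ?_⟩
  have e : lam α θ - (-(1 / 4) * α ^ 2 - c * θ ^ 4) = lam α θ + α ^ 2 / 4 + c * θ ^ 4 := by ring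
  rw [e]
  exact h3

end Pool.Agent.Results.MP_687a20_mp.WeakBending
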